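import Pool.Agent.Helper74.OKA.St.A2a

set_option autoImplicit false

open Set Metric Topology MeasureTheory
open scoped Manifold ContDiff

namespace Pool.Agent.Helper44.OKA

open Pool.Agent.Helper74.OKA

namespace A2b

open Complex

/-- primitive of the logarithm -/
noncomputable def Gl (z : ℂ) : ℂ := z * log z - z

theorem hasDerivAt_Gl {z : ℂ} (hz : z ∈ slitPlane) : HasDerivAt Gl (log z) z := by
  have h := ((hasDerivAt_id z).mul (hasDerivAt_log hz)).sub (hasDerivAt_id z)
  have h0 : z ≠ 0 := slitPlane_ne_zero hz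
  refine h.congr_deriv ?_
  simp [h0]

theorem slit_of_im {z : ℂ} (h : z.im ≠ 0) : z ∈ slitPlane := Or.inr h

theorem slit_of_re {z : ℂ} (h : 0 < z.re) : z ∈ slitPlane := Or.inl h

theorem log_neg_of_im_pos {z : ℂ} (h : 0 < z.im) : log (-z) = log z - Real.pi * I := by
  simp only [log, norm_neg, arg_neg_eq_arg_sub_pi_of_im_pos h]
  push_cast
  ring

theorem log_neg_of_im_neg {z : ℂ} (h : z.im < 0) : log (-z) = log z + Real.pi * I := by
  simp only [log, norm_neg, arg_neg_eq_arg_add_pi_of_im_neg h]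
  push_cast
  ring

/-- the inner integral -/
theorem inner (R : ℝ) (hR : 0 < R) (w : ℂ) (hw : |w.im| < R) (x : ℝ) (hx : x ≠ w.re) :
    ∫ y in Ioo (-R) R, ((x : ℂ) + y * I - w)⁻¹ =
      -I * (log ((x : ℂ) + R * I - w) - log ((x : ℂ) - R * I - w)) -
        (if x < w.re then 2 * Real.pi else 0 : ℝ) := by
  rw [← integral_Ioc_eq_integral_Ioo, ← intervalIntegral.integral_of_le (by linarith)]
  obtain ⟨hw1, hw2⟩ := abs_lt.1 hw
  rcases lt_or_gt_of_ne hx with h | h
  · -- left of the singularity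
    have hd : ∀ y ∈ uIcc (-R) R, HasDerivAt
        (fun y : ℝ => -I * log (-((x : ℂ) + y * I - w))) ((x : ℂ) + y * I - w)⁻¹ y := by
      intro y _
      have h1 : HasDerivAt (fun y : ℝ => -((x : ℂ) + y * I - w)) (-I) y := by
        have h0 : HasDerivAt (fun y : ℝ => ((x : ℂ) + y * I - w)) I y := by
          have := ((((hasDerivAt_id y).ofReal_comp.mul_const I).const_add (x : ℂ)).sub_const w)
          simpa using this
        exact h0.neg
      have h2 : -((x : ℂ) + y * I - w) ∈ slitPlane := by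
        refine slit_of_re ?_
        simp
        linarith
      have h3 := (h1.clog_real h2).const_mul (-I)
      have h4 : (x : ℂ) + y * I - w ≠ 0 := fun h => by
        rw [h, neg_zero] at h2
        exact slitPlane_ne_zero h2 rfl
      refine h3.congr_deriv ?_
      field_simp
      rw [I_sq]
      ring
    rw [intervalIntegral.integral_eq_sub_of_hasDerivAt hd]
    · rw [if_pos h]
      have e1 : log (-((x : ℂ) + R * I - w)) = log ((x : ℂ) + R * I - w) - Real.pi * I := by
        refine log_neg_of_im_pos ?_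
        simp
        linarith
      have e2 : log (-((x : ℂ) + (-R : ℝ) * I - w)) =
          log ((x : ℂ) + (-R : ℝ) * I - w) + Real.pi * I := by
        refine log_neg_of_im_neg ?_
        simp
        linarith
      rw [e1, e2]
      have e3 : (x : ℂ) + (-R : ℝ) * I - w = (x : ℂ) - R * I - w := by
        push_cast
        ring
      rw [e3]
      push_cast
      linear_combination (2 * (Real.pi : ℂ)) * I_sq
    · refine ContinuousOn.intervalIntegrable ?_
      refine ContinuousOn.inv₀ (by fun_prop) ?_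
      intro y _ h0
      have := congrArg re h0
      simp at this
      linarith
  · have hd : ∀ y ∈ uIcc (-R) R, HasDerivAt
        (fun y : ℝ => -I * log ((x : ℂ) + y * I - w)) ((x : ℂ) + y * I - w)⁻¹ y := by
      intro y _
      have h1 : HasDerivAt (fun y : ℝ => ((x : ℂ) + y * I - w)) I y := by
        have := ((((hasDerivAt_id y).ofReal_comp.mul_const I).const_add (x : ℂ)).sub_const w)
        simpa using this
      have h2 : ((x : ℂ) + y * I - w) ∈ slitPlane := by
        refine slit_of_re ?_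
        simp
        linarith
      have h3 := (h1.clog_real h2).const_mul (-I)
      have h4 : (x : ℂ) + y * I - w ≠ 0 := slitPlane_ne_zero h2
      refine h3.congr_deriv ?_
      field_simp
      rw [I_sq]
      ring
    rw [intervalIntegral.integral_eq_sub_of_hasDerivAt hd]
    · rw [if_neg (not_lt.2 h.le)]
      have e3 : (x : ℂ) + (-R : ℝ) * I - w = (x : ℂ) - R * I - w := by
        push_cast
        ring
      rw [e3]
      push_cast
      ring
    · refine ContinuousOn.intervalIntegrable ?_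
      refine ContinuousOn.inv₀ (by fun_prop) ?_
      intro y _ h0
      have := congrArg re h0
      simp at this
      linarith

/-- the outer integral of a logarithm -/
theorem outer (a b : ℝ) (hab : a ≤ b) (c : ℂ) (hc : c.im ≠ 0) :
    IntegrableOn (fun x : ℝ => log ((x : ℂ) + c)) (Ioo a b) ∧
    ∫ x in Ioo a b, log ((x : ℂ) + c) = Gl ((b : ℂ) + c) - Gl ((a : ℂ) + c) := by
  have hs : ∀ x : ℝ, (x : ℂ) + c ∈ slitPlane := fun x => slit_of_im (by simpa using hc)
  have hcont : Continuous fun x : ℝ => log ((x : ℂ) + c) :=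
    Continuous.clog (by fun_prop) hs
  refine ⟨(hcont.integrableOn_Icc (a := a) (b := b)).mono_set Ioo_subset_Icc_self, ?_⟩
  rw [← integral_Ioc_eq_integral_Ioo, ← intervalIntegral.integral_of_le hab]
  refine intervalIntegral.integral_eq_sub_of_hasDerivAt (f := fun x : ℝ => Gl ((x : ℂ) + c))
    (fun x _ => ?_) (hcont.intervalIntegrable _ _)
  have h1 : HasDerivAt (fun x : ℝ => (x : ℂ) + c) 1 x := by
    simpa using (hasDerivAt_id x).ofReal_comp.add_const c
  have h2 : HasDerivAt (fun x : ℝ => Gl ((x : ℂ) + c)) (log ((x : ℂ) + c) * 1) x :=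
    HasDerivAt.comp x (hasDerivAt_Gl (hs x)) h1
  rwa [mul_one] at h2

theorem jump (ε : ℝ) (hε : 0 < ε) (u : ℝ) :
    IntegrableOn (fun x : ℝ => ((if x < u then 2 * Real.pi else 0 : ℝ) : ℂ))
      (Ioo (-(ε / 2)) (ε / 2)) ∧
    ∫ x in Ioo (-(ε / 2)) (ε / 2), ((if x < u then 2 * Real.pi else 0 : ℝ) : ℂ) =
      ((2 * Real.pi * ε * ramp ε u : ℝ) : ℂ) := by
  have h1 : ∀ x : ℝ, ((if x < u then 2 * Real.pi else 0 : ℝ) : ℂ) =
      (Iio u).indicator (fun _ => ((2 * Real.pi : ℝ) : ℂ)) x := by
    intro x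
    by_cases h : x < u
    · simp [h]
    · simp [h]
  simp_rw [h1]
  constructor
  · refine Integrable.indicator ?_ measurableSet_Iio
    exact integrableOn_const (by simp) enorm_ne_top
  · rw [integral_indicator measurableSet_Iio, Measure.restrict_restrict measurableSet_Iio,
      integral_const, measureReal_restrict_apply_univ, Iio_inter_Ioo]
    rw [Real.volume_real_Ioo, Complex.real_smul, ← Complex.ofReal_mul]
    congr 1
    have h2 : max (min u (ε / 2) - -(ε / 2)) 0 = ε * ramp ε u := by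
      unfold ramp
      rw [mul_max_of_nonneg _ _ hε.le, mul_min_of_nonneg _ _ hε.le, mul_zero, mul_one,
        mul_div_cancel₀ _ hε.ne', max_comm, min_comm ε]
      congr 1
      rcases le_total u (ε / 2) with h | h
      · rw [min_eq_left h, min_eq_left (by linarith)]
        ring
      · rw [min_eq_right h, min_eq_right (by linarith)]
        ring
    rw [h2]
    ring

/-- the area integral -/
theorem area (ε R : ℝ) (hε : 0 < ε) (hR : 0 < R) (w : ℂ) (hw : |w.im| < R) :
    ∫ ζ in Rc ε R, (ζ - w)⁻¹ =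
      -I * ((Gl ((ε / 2 : ℝ) + (R * I - w)) - Gl ((-(ε / 2) : ℝ) + (R * I - w))) -
        (Gl ((ε / 2 : ℝ) + (-(R * I) - w)) - Gl ((-(ε / 2) : ℝ) + (-(R * I) - w)))) -
        ((2 * Real.pi * ε * ramp ε w.re : ℝ) : ℂ) := by
  obtain ⟨hw1, hw2⟩ := abs_lt.1 hw
  set g : ℝ × ℝ → ℂ := fun p => ((p.1 : ℂ) + p.2 * I - w)⁻¹ with hg
  have hset : Rc ε R = measurableEquivRealProd ⁻¹' (Ioo (-(ε / 2)) (ε / 2) ×ˢ Ioo (-R) R) := by
    ext ζ
    simp only [Rc, mem_ofPred_eq, mem_preimage, measurableEquivRealProd_apply, mem_prod, mem_Ioo,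
      abs_lt]
  have hgf : ∀ ζ : ℂ, (ζ - w)⁻¹ = g (measurableEquivRealProd ζ) := by
    intro ζ
    simp only [hg, measurableEquivRealProd_apply, re_add_im]
  have hint0 : IntegrableOn (fun ζ : ℂ => (ζ - w)⁻¹) (Rc ε R) := by
    obtain ⟨K, _, hK⟩ := kernel_bound ε R
    have h1 := (hK w).1
    refine (integrable_norm_iff ?_).1 ?_
    · exact (Measurable.inv (measurable_id.sub_const w)).aestronglyMeasurable
    · simp only [norm_inv]
      exact h1
  have hint : IntegrableOn g (Ioo (-(ε / 2)) (ε / 2) ×ˢ Ioo (-R) R) (volume.prod volume) := by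
    rw [hset] at hint0
    rw [← Measure.volume_eq_prod,
      ← volume_preserving_equiv_real_prod.integrableOn_comp_preimage
        measurableEquivRealProd.measurableEmbedding]
    refine hint0.congr (Filter.Eventually.of_forall fun ζ => ?_)
    exact hgf ζ
  have e1 : ∫ ζ in Rc ε R, (ζ - w)⁻¹ =
      ∫ x in Ioo (-(ε / 2)) (ε / 2), ∫ y in Ioo (-R) R, g (x, y) := by
    rw [← setIntegral_prod g hint, hset]
    simp_rw [hgf]
    rw [← Measure.volume_eq_prod]
    exact volume_preserving_equiv_real_prod.setIntegral_preimage_emb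
      measurableEquivRealProd.measurableEmbedding g _
  have hne : ∀ᵐ x ∂(volume.restrict (Ioo (-(ε / 2)) (ε / 2))), x ≠ w.re := by
    refine ae_restrict_of_ae ?_
    rw [ae_iff]
    simp
  have hab : -(ε / 2) ≤ ε / 2 := by linarith
  obtain ⟨i1, o1⟩ := outer (-(ε / 2)) (ε / 2) hab (R * I - w) (by simp; intro h; linarith)
  obtain ⟨i2, o2⟩ := outer (-(ε / 2)) (ε / 2) hab (-(R * I) - w) (by simp; intro h; linarith)
  obtain ⟨i3, o3⟩ := jump ε hε w.re
  have e2 : ∫ x in Ioo (-(ε / 2)) (ε / 2), ∫ y in Ioo (-R) R, g (x, y) =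
      ∫ x in Ioo (-(ε / 2)) (ε / 2), (-I * (log ((x : ℂ) + (R * I - w)) -
        log ((x : ℂ) + (-(R * I) - w))) - ((if x < w.re then 2 * Real.pi else 0 : ℝ) : ℂ)) := by
    refine integral_congr_ae (hne.mono fun x hx => ?_)
    have := inner R hR w hw x hx
    simp only [hg]
    rw [this]
    congr 5
    · ring
    · ring
  have i4 : Integrable (fun x : ℝ => -I * (log ((x : ℂ) + (R * I - w)) -
      log ((x : ℂ) + (-(R * I) - w)))) (volume.restrict (Ioo (-(ε / 2)) (ε / 2))) :=
    (Integrable.sub i1 i2).const_mul (-I)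
  rw [e1, e2, integral_sub i4 i3, integral_const_mul, integral_sub i1 i2, o1, o2, o3]

end A2b

/-- A2b -/
theorem kernel_hol (ε R : ℝ) (hε : 0 < ε) (hR : 0 < R) :
    DifferentiableOn ℂ (fun w : ℂ => (ramp ε w.re : ℂ) +
      (1 / (2 * Real.pi * ε) : ℝ) • ∫ ζ in Rc ε R, (ζ - w)⁻¹) {w | |w.im| < R} := by
  have key : ∀ w ∈ {w : ℂ | |w.im| < R}, (ramp ε w.re : ℂ) +
      (1 / (2 * Real.pi * ε) : ℝ) • ∫ ζ in Rc ε R, (ζ - w)⁻¹ =
      (1 / (2 * Real.pi * ε) : ℝ) • (-Complex.I *
        ((A2b.Gl ((ε / 2 : ℝ) + (R * Complex.I - w)) -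
          A2b.Gl ((-(ε / 2) : ℝ) + (R * Complex.I - w))) -
        (A2b.Gl ((ε / 2 : ℝ) + (-(R * Complex.I) - w)) -
          A2b.Gl ((-(ε / 2) : ℝ) + (-(R * Complex.I) - w))))) := by
    intro w hw
    rw [A2b.area ε R hε hR w hw, smul_sub]
    have h1 : (1 / (2 * Real.pi * ε) : ℝ) • ((2 * Real.pi * ε * ramp ε w.re : ℝ) : ℂ) =
        (ramp ε w.re : ℂ) := by
      rw [Complex.real_smul, ← Complex.ofReal_mul]
      congr 1
      have : (2 * Real.pi * ε) ≠ 0 := by positivity
      field_simp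
    rw [h1]
    ring
  refine DifferentiableOn.congr ?_ key
  intro w hw
  obtain ⟨hw1, hw2⟩ := abs_lt.1 (show |w.im| < R from hw)
  have hG : ∀ c : ℂ, (c - w).im ≠ 0 →
      DifferentiableAt ℂ (fun w : ℂ => A2b.Gl (c - w)) w := by
    intro c hc
    exact (A2b.hasDerivAt_Gl (A2b.slit_of_im hc)).differentiableAt.comp w
      ((differentiableAt_const c).sub differentiableAt_id)
  have hG' : ∀ (a : ℝ) (c : ℂ), (c - w).im ≠ 0 →
      DifferentiableAt ℂ (fun w : ℂ => A2b.Gl ((a : ℂ) + (c - w))) w := by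
    intro a c hc
    have := hG ((a : ℂ) + c) (by simpa using hc)
    simpa only [add_sub_assoc] using this
  refine DifferentiableAt.differentiableWithinAt ?_
  have hA : (R * Complex.I - w).im ≠ 0 := by
    simp
    intro h
    linarith
  have hB : (-(R * Complex.I) - w).im ≠ 0 := by
    simp
    intro h
    linarith
  exact ((((hG' _ _ hA).fun_sub (hG' _ _ hA)).fun_sub
    ((hG' _ _ hB).fun_sub (hG' _ _ hB))).const_mul (-Complex.I)).fun_const_smul
    (1 / (2 * Real.pi * ε) : ℝ)

end Pool.Agent.Helper44.OKA
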